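import Mathlib
import Pool.Agent.W205.K5.Stm0

/-! Crossing reduction for sequences. -/

set_option autoImplicit false

namespace Pool.Agent.W104.K5

open Finset Pool.Agent.W205.K5

theorem auxA (i j : ℕ) (x c : ℝ) (hc : 0 ≤ c) (hcx : c ≤ x) (hx1 : x ≤ 1) :
    (1 - x) ^ i * x ^ j * c ^ (i + j) ≤ (1 - c) ^ i * c ^ j * x ^ (i + j) := by
  have hx : 0 ≤ x := hc.trans hcx
  have e1 : (1 - x) ^ i * x ^ j * c ^ (i + j) = ((1 - x) * c) ^ i * (x * c) ^ j := by
    rw [mul_pow, mul_pow, pow_add]; ring
  have e2 : (1 - c) ^ i * c ^ j * x ^ (i + j) = ((1 - c) * x) ^ i * (x * c) ^ j := by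
    rw [mul_pow, mul_pow, pow_add]; ring
  rw [e1, e2]
  refine mul_le_mul_of_nonneg_right ?_ (by positivity)
  refine pow_le_pow_left₀ (mul_nonneg (by linarith) hc) ?_ i
  nlinarith

theorem binom (k : ℕ) (x y : ℝ) :
    ∑ j ∈ range (k + 1), (k.choose j : ℝ) * x ^ (k - j) * y ^ j = (y + x) ^ k := by
  rw [add_pow]
  refine sum_congr rfl fun j _ => ?_
  ring

theorem crs : S_CRS := by
  intro k u ρc hk hu0 hu hul hc0 hc1 hroot hTh ρ h0 h1
  rcases le_total ρc ρ with h | h
  · refine le_trans (min_le_left _ _) ?_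
    have e : ∀ x : ℝ, 1 - Th k x u =
        ∑ j ∈ range (k + 1), (k.choose j : ℝ) * (1 - x) ^ (k - j) * x ^ j * (1 - u j) := by
      intro x
      have hb := binom k (1 - x) x
      have : x + (1 - x) = 1 := by ring
      rw [this, one_pow] at hb
      have hb' : 1 - Th k x u =
          (∑ j ∈ range (k + 1), (k.choose j : ℝ) * (1 - x) ^ (k - j) * x ^ j) - Th k x u := by
        rw [hb]
      rw [hb']
      unfold Th
      rw [← sum_sub_distrib]
      refine sum_congr rfl fun j _ => ?_
      ring
    have key : (1 - Th k ρ u) * ρc ^ k ≤ (1 - Th k ρc u) * ρ ^ k := by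
      rw [e, e, sum_mul, sum_mul]
      refine sum_le_sum fun j hj => ?_
      have hj' : j ≤ k := by have := mem_range.1 hj; omega
      have t := auxA (k - j) j ρ ρc hc0.le h h1
      rw [Nat.sub_add_cancel hj'] at t
      have hn : 0 ≤ (k.choose j : ℝ) * (1 - u j) :=
        mul_nonneg (Nat.cast_nonneg _) (by linarith [(hu j).2])
      nlinarith [mul_le_mul_of_nonneg_left t hn]
    have hcp : 0 < ρc ^ k := pow_pos hc0 k
    have hrp : 0 ≤ ρ ^ k := pow_nonneg h0 k
    have k2 : (1 - Th k ρ u) * ρc ^ k ≤ ρ ^ k * ρc ^ k := by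
      refine key.trans ?_
      nlinarith [mul_le_mul_of_nonneg_right (show 1 - Th k ρc u ≤ ρc ^ k by linarith) hrp]
    have := le_of_mul_le_mul_right k2 hcp
    linarith
  · refine le_trans (min_le_right _ _) ?_
    have hk0 : (0 : ℝ) < k := by exact_mod_cast (by omega : 0 < k)
    set lam : ℝ := 1 - 1 / (k : ℝ) with hlam
    have hlam0 : 0 ≤ lam := by
      rw [hlam, sub_nonneg, div_le_one hk0]; exact_mod_cast (by omega : 1 ≤ k)
    set d : ℕ → ℝ := fun j => u j - lam ^ j with hd
    have e : ∀ x : ℝ, Th k x u - (1 - x / k) ^ k =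
        ∑ j ∈ range (k + 1), (k.choose j : ℝ) * (1 - x) ^ (k - j) * x ^ j * d j := by
      intro x
      have hb := binom k (1 - x) (x * lam)
      have h2 : x * lam + (1 - x) = 1 - x / k := by rw [hlam]; field_simp; ring
      rw [h2] at hb
      unfold Th
      rw [← hb, ← sum_sub_distrib]
      refine sum_congr rfl fun j _ => ?_
      simp only [hd]
      rw [mul_pow]; ring
    -- signs
    have hstep : ∀ j : ℕ, 1 ≤ j → j < k → d j < 0 → d (j + 1) < 0 := by
      intro j hj1 hjk hdj
      have h3 := hul j hj1 hjk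
      have h4 : u j < lam ^ j := by simp only [hd] at hdj; linarith
      have h5 : u (j + 1) ^ j < (lam ^ (j + 1)) ^ j := by
        refine lt_of_le_of_lt h3 ?_
        have : (lam ^ (j + 1)) ^ j = (lam ^ j) ^ (j + 1) := by
          rw [← pow_mul, ← pow_mul, mul_comm]
        rw [this]
        exact pow_lt_pow_left₀ h4 (hu j).1 (by omega)
      have h6 : u (j + 1) < lam ^ (j + 1) :=
        lt_of_pow_lt_pow_left₀ j (pow_nonneg hlam0 _) h5
      simp only [hd]; linarith
    have hd0 : d 0 = 0 := by simp [hd, hu0]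
    have hDc : 0 ≤ ∑ j ∈ range (k + 1), (k.choose j : ℝ) * (1 - ρc) ^ (k - j) * ρc ^ j * d j := by
      rw [← e]; linarith
    suffices hD : 0 ≤ ∑ j ∈ range (k + 1), (k.choose j : ℝ) * (1 - ρ) ^ (k - j) * ρ ^ j * d j by
      rw [← e] at hD; linarith
    by_cases hall : ∀ j ≤ k, 0 ≤ d j
    · refine sum_nonneg fun j hj => ?_
      have hj' : j ≤ k := by have := mem_range.1 hj; omega
      have := hall j hj'
      have h1r : 0 ≤ 1 - ρ := by linarith
      positivity
    · push Not at hall
      classical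
      have hex : ∃ j, j ≤ k ∧ d j < 0 := by
        obtain ⟨j, hj, hdj⟩ := hall; exact ⟨j, hj, hdj⟩
      set m := Nat.find hex with hm
      have hmk : m ≤ k := (Nat.find_spec hex).1
      have hmd : d m < 0 := (Nat.find_spec hex).2
      have hm1 : 1 ≤ m := by
        rcases Nat.eq_zero_or_pos m with h0' | h0'
        · rw [h0', hd0] at hmd; exact absurd hmd (lt_irrefl _)
        · exact h0'
      have hlow : ∀ j < m, 0 ≤ d j := by
        intro j hj
        have := Nat.find_min hex hj
        push Not at this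
        exact this (by omega)
      have hhigh : ∀ j, m ≤ j → j ≤ k → d j < 0 := by
        intro j hj
        induction j, hj using Nat.le_induction with
        | base => intro _; exact hmd
        | succ n hn ih => intro hnk; exact hstep n (by omega) (by omega) (ih (by omega))
      have hA : 0 < (1 - ρc) ^ (k - m) * ρc ^ m :=
        mul_pos (pow_pos (by linarith) _) (pow_pos hc0 _)
      have h1r : 0 ≤ 1 - ρ := by linarith
      have h1c : 0 ≤ 1 - ρc := by linarith
      have hB : 0 ≤ (1 - ρ) ^ (k - m) * ρ ^ m := by positivity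
      have hcross : ρ * (1 - ρc) ≤ ρc * (1 - ρ) := by nlinarith
      have main : (∑ j ∈ range (k + 1), (k.choose j : ℝ) * (1 - ρc) ^ (k - j) * ρc ^ j * d j) *
          ((1 - ρ) ^ (k - m) * ρ ^ m) ≤
          (∑ j ∈ range (k + 1), (k.choose j : ℝ) * (1 - ρ) ^ (k - j) * ρ ^ j * d j) *
          ((1 - ρc) ^ (k - m) * ρc ^ m) := by
        rw [sum_mul, sum_mul]
        refine sum_le_sum fun j hj => ?_
        have hj' : j ≤ k := by have := mem_range.1 hj; omega
        rcases lt_or_ge j m with hjm | hjm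
        · -- d j ≥ 0
          obtain ⟨i, hi⟩ : ∃ i, m = j + i := ⟨m - j, by omega⟩
          obtain ⟨l, hl⟩ : ∃ l, k = m + l := ⟨k - m, by omega⟩
          have e1 : k - j = l + i := by omega
          have e2 : k - m = l := by omega
          have hdj := hlow j hjm
          have hp : (ρ * (1 - ρc)) ^ i ≤ (ρc * (1 - ρ)) ^ i :=
            pow_le_pow_left₀ (mul_nonneg h0 h1c) hcross i
          have hw : 0 ≤ (k.choose j : ℝ) * d j * ((1 - ρ) * (1 - ρc)) ^ l * (ρ * ρc) ^ j := by
            positivity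
          have hq := mul_le_mul_of_nonneg_left hp hw
          rw [e1, e2, hi]
          calc (k.choose j : ℝ) * (1 - ρc) ^ (l + i) * ρc ^ j * d j * ((1 - ρ) ^ l * ρ ^ (j + i))
              = (k.choose j : ℝ) * d j * ((1 - ρ) * (1 - ρc)) ^ l * (ρ * ρc) ^ j *
                (ρ * (1 - ρc)) ^ i := by
                simp only [mul_pow, pow_add]; ring
            _ ≤ _ := hq
            _ = _ := by simp only [mul_pow, pow_add]; ring
        · -- d j < 0
          obtain ⟨i, hi⟩ : ∃ i, j = m + i := ⟨j - m, by omega⟩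
          obtain ⟨l, hl⟩ : ∃ l, k = j + l := ⟨k - j, by omega⟩
          have e1 : k - j = l := by omega
          have e2 : k - m = l + i := by omega
          have hdj := hhigh j hjm hj'
          have hp : (ρ * (1 - ρc)) ^ i ≤ (ρc * (1 - ρ)) ^ i :=
            pow_le_pow_left₀ (mul_nonneg h0 h1c) hcross i
          have hw : 0 ≤ (k.choose j : ℝ) * (-d j) * ((1 - ρ) * (1 - ρc)) ^ l * (ρ * ρc) ^ m := by
            have : 0 ≤ -d j := by linarith
            positivity
          have hq := mul_le_mul_of_nonneg_left hp hw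
          rw [e1, e2]
          have f1 : (k.choose j : ℝ) * (1 - ρc) ^ l * ρc ^ j * d j * ((1 - ρ) ^ (l + i) * ρ ^ m) =
              - ((k.choose j : ℝ) * (-d j) * ((1 - ρ) * (1 - ρc)) ^ l * (ρ * ρc) ^ m *
                (ρc * (1 - ρ)) ^ i) := by
            rw [show ρc ^ j = ρc ^ m * ρc ^ i by rw [← pow_add, ← hi]]
            simp only [mul_pow, pow_add]; ring
          have f2 : (k.choose j : ℝ) * (1 - ρ) ^ l * ρ ^ j * d j * ((1 - ρc) ^ (l + i) * ρc ^ m) =
              - ((k.choose j : ℝ) * (-d j) * ((1 - ρ) * (1 - ρc)) ^ l * (ρ * ρc) ^ m *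
                (ρ * (1 - ρc)) ^ i) := by
            rw [show ρ ^ j = ρ ^ m * ρ ^ i by rw [← pow_add, ← hi]]
            simp only [mul_pow, pow_add]; ring
          rw [f1, f2]
          linarith
      have hfin := le_trans (mul_nonneg hDc hB) main
      exact nonneg_of_mul_nonneg_left hfin hA

end Pool.Agent.W104.K5
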